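import Pool.Agent.W787.KG.Defs

/-! KG-FIX: the fixed point -/

open MeasureTheory Set Metric Filter Topology Real
open scoped ContDiff

noncomputable section

namespace Pool.Agent.W637.KG

open Pool.Agent.W787.KG

theorem NN_even {f h : E → ℝ} (hf : ∀ ξ, f (-ξ) = f ξ) (hh : ∀ ξ, h (-ξ) = h ξ) (ξ : E) :
    NN f h (-ξ) = NN f h ξ := by
  unfold NN
  rw [← integral_neg_eq_self]
  congr 1
  funext η
  have h1 : -ξ - -η = -(ξ - η) := by abel
  rw [inner_neg_left, inner_neg_right, neg_neg, norm_neg, h1, hf, hh]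

theorem BB_even {f h : ℝ → E → ℝ} (hf : ∀ t ξ, f t (-ξ) = f t ξ) (hh : ∀ t ξ, h t (-ξ) = h t ξ)
    (t : ℝ) (ξ : E) : BB f h t (-ξ) = BB f h t ξ := by
  unfold BB
  congr 1
  funext s
  rw [norm_neg, NN_even (hf s) (hh s)]

/-- the linear part -/
def GG (g : E → ℝ) (t : ℝ) (ξ : E) : ℝ := Real.exp (-(max t 0) * ‖ξ‖ ^ 2) * g ξ

/-- the iteration -/
def ff (g : E → ℝ) : ℕ → ℝ → E → ℝ
  | 0 => fun _ _ => 0
  | k + 1 => fun t ξ => GG g t ξ + BB (ff g k) (ff g k) t ξ

theorem fix (h1 : S_BB) (h4 : S_WE) : S_FIX := by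
  obtain ⟨C, hC, hBB⟩ := h1
  obtain ⟨-, hwt, -, hW0, -⟩ := h4
  refine ⟨1 / (8 * C), by positivity, ?_⟩
  intro L g hL hg hge hgb
  set a : ℝ := 1 / (8 * C) with ha
  have ha0 : 0 < a := by positivity
  have hCa : C * a = 1 / 8 := by rw [ha]; field_simp
  set w : ℝ → E → ℝ := fun t ξ => wt L (max t 0) ξ with hw
  have hwpos : ∀ t ξ, 0 < w t ξ := fun t ξ => (hwt L (max t 0) ξ hL (le_max_right _ _)).1
  have hwle : ∀ t ξ, w t ξ ≤ L * Wg 6 1 1 ξ := fun t ξ => (hwt L (max t 0) ξ hL (le_max_right _ _)).2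
  have hWg1 : ∀ ξ, Wg 6 1 1 ξ ≤ 1 := by
    intro ξ
    have := hW0 6 0 ξ (by norm_num)
    simpa [Wg] using this
  have hwL : ∀ t ξ, w t ξ ≤ L := by
    intro t ξ
    calc w t ξ ≤ L * Wg 6 1 1 ξ := hwle t ξ
      _ ≤ L * 1 := mul_le_mul_of_nonneg_left (hWg1 ξ) (by linarith)
      _ = L := mul_one L
  have hGb : ∀ t ξ, |GG g t ξ| ≤ a * w t ξ := by
    intro t ξ
    unfold GG
    rw [abs_mul, abs_of_pos (Real.exp_pos _)]
    exact hgb (max t 0) ξ (le_max_right _ _)
  have hGc : Continuous (fun z : ℝ × E => GG g z.1 z.2) := by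
    unfold GG
    exact (Real.continuous_exp.comp (by fun_prop)).mul (hg.comp continuous_snd)
  have hGe : ∀ t ξ, GG g t (-ξ) = GG g t ξ := by
    intro t ξ
    unfold GG
    rw [norm_neg, hge]
  -- induction
  have hind : ∀ k, Continuous (fun z : ℝ × E => ff g k z.1 z.2) ∧
      (∀ t ξ, |ff g k t ξ| ≤ 2 * a * w t ξ) ∧ (∀ t ξ, ff g k t (-ξ) = ff g k t ξ) := by
    intro k
    induction k with
    | zero =>
      refine ⟨continuous_const, fun t ξ => ?_, fun t ξ => rfl⟩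
      show |(0 : ℝ)| ≤ _
      rw [abs_zero]
      have := hwpos t ξ
      positivity
    | succ k ih =>
      obtain ⟨hc, hb, he⟩ := ih
      obtain ⟨hB1, hB2, -⟩ := hBB L (2 * a) (2 * a) (ff g k) (ff g k) hL (by positivity)
        (by positivity) hc hc hb hb
      refine ⟨?_, ?_, ?_⟩
      · exact hGc.add hB1
      · intro t ξ
        show |GG g t ξ + BB (ff g k) (ff g k) t ξ| ≤ _
        have h5 := hB2 t ξ
        have h6 := hGb t ξ
        have h7 : C * (2 * a) * (2 * a) = a / 2 := by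
          calc C * (2 * a) * (2 * a) = 4 * a * (C * a) := by ring
            _ = a / 2 := by rw [hCa]; ring
        rw [h7] at h5
        have h8 : 0 < w t ξ := hwpos t ξ
        calc |GG g t ξ + BB (ff g k) (ff g k) t ξ| ≤ |GG g t ξ| + |BB (ff g k) (ff g k) t ξ| :=
            abs_add_le _ _
          _ ≤ a * w t ξ + a / 2 * w t ξ := add_le_add h6 h5
          _ ≤ 2 * a * w t ξ := by nlinarith [mul_pos ha0 h8]
      · intro t ξ
        show GG g t (-ξ) + BB (ff g k) (ff g k) t (-ξ) = GG g t ξ + BB (ff g k) (ff g k) t ξ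
        rw [hGe, BB_even he he]
  -- differences of two functions
  have hdiff : ∀ (f h : ℝ → E → ℝ) (δ : ℝ), 0 ≤ δ → Continuous (fun z : ℝ × E => f z.1 z.2) →
      Continuous (fun z : ℝ × E => h z.1 z.2) → (∀ t ξ, |f t ξ| ≤ 2 * a * w t ξ) →
      (∀ t ξ, |h t ξ| ≤ 2 * a * w t ξ) → (∀ t ξ, |f t ξ - h t ξ| ≤ δ * w t ξ) →
      ∀ t ξ, |BB f f t ξ - BB h h t ξ| ≤ δ / 2 * w t ξ := by
    intro f h δ hδ hfc hhc hfb hhb hd t ξ
    have hdc : Continuous (fun z : ℝ × E => (fun t ξ => f t ξ - h t ξ) z.1 z.2) := hfc.sub hhc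
    obtain ⟨-, -, e⟩ := hBB L (2 * a) (2 * a) f h hL (by positivity) (by positivity) hfc hhc hfb hhb
    obtain ⟨-, b1, -⟩ := hBB L δ (2 * a) (fun t ξ => f t ξ - h t ξ) f hL hδ (by positivity)
      hdc hfc hd hfb
    obtain ⟨-, b2, -⟩ := hBB L (2 * a) δ h (fun t ξ => f t ξ - h t ξ) hL (by positivity) hδ
      hhc hdc hhb hd
    rw [e t ξ]
    have g1 := b1 t ξ
    have g2 := b2 t ξ
    have e1 : C * δ * (2 * a) = δ / 4 := by
      calc C * δ * (2 * a) = 2 * δ * (C * a) := by ring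
        _ = δ / 4 := by rw [hCa]; ring
    have e2 : C * (2 * a) * δ = δ / 4 := by
      calc C * (2 * a) * δ = 2 * δ * (C * a) := by ring
        _ = δ / 4 := by rw [hCa]; ring
    rw [e1] at g1
    rw [e2] at g2
    calc _ ≤ _ := abs_add_le _ _
      _ ≤ δ / 4 * w t ξ + δ / 4 * w t ξ := add_le_add g1 g2
      _ = δ / 2 * w t ξ := by ring
  have hstep : ∀ k t ξ, |ff g (k + 1) t ξ - ff g k t ξ| ≤ 2 * a * (1 / 2) ^ k * w t ξ := by
    intro k
    induction k with
    | zero =>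
      intro t ξ
      have h5 := (hind 1).2.1 t ξ
      show |ff g 1 t ξ - 0| ≤ _
      rw [sub_zero, pow_zero, mul_one]
      exact h5
    | succ k ih =>
      intro t ξ
      have h5 := hdiff (ff g (k + 1)) (ff g k) (2 * a * (1 / 2) ^ k) (by positivity)
        (hind (k + 1)).1 (hind k).1 (hind (k + 1)).2.1 (hind k).2.1 ih t ξ
      have e1 : ff g (k + 1 + 1) t ξ - ff g (k + 1) t ξ =
          BB (ff g (k + 1)) (ff g (k + 1)) t ξ - BB (ff g k) (ff g k) t ξ := by
        show (GG g t ξ + BB (ff g (k + 1)) (ff g (k + 1)) t ξ) -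
          (GG g t ξ + BB (ff g k) (ff g k) t ξ) = _
        ring
      rw [e1]
      refine h5.trans (le_of_eq ?_)
      rw [pow_succ]; ring
  -- the limit
  have hdist : ∀ t ξ n, dist (ff g n t ξ) (ff g (n + 1) t ξ) ≤ (2 * a * w t ξ) * (1 / 2) ^ n := by
    intro t ξ n
    rw [dist_comm, Real.dist_eq]
    refine (hstep n t ξ).trans (le_of_eq ?_)
    ring
  have hlim : ∀ t ξ, ∃ y, Tendsto (fun n => ff g n t ξ) atTop (𝓝 y) := by
    intro t ξ
    exact cauchySeq_tendsto_of_complete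
      (cauchySeq_of_le_geometric (1 / 2) (2 * a * w t ξ) (by norm_num) (hdist t ξ))
  choose F hF using hlim
  have hFd : ∀ t ξ n, |F t ξ - ff g n t ξ| ≤ 4 * a * (1 / 2) ^ n * w t ξ := by
    intro t ξ n
    have h5 := dist_le_of_le_geometric_of_tendsto (1 / 2) (2 * a * w t ξ) (by norm_num)
      (hdist t ξ) (hF t ξ) n
    rw [dist_comm, Real.dist_eq] at h5
    refine h5.trans (le_of_eq ?_)
    ring
  have hFb : ∀ t ξ, |F t ξ| ≤ 2 * a * w t ξ := by
    intro t ξ
    exact le_of_tendsto (hF t ξ).abs (Eventually.of_forall fun n => (hind n).2.1 t ξ)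
  have hgeo : Tendsto (fun n : ℕ => 4 * a * (1 / 2 : ℝ) ^ n * L) atTop (𝓝 0) := by
    have h5 := tendsto_pow_atTop_nhds_zero_of_lt_one (r := (1 / 2 : ℝ)) (by norm_num) (by norm_num)
    have h6 := (h5.const_mul (4 * a)).mul_const L
    simpa using h6
  have hFc : Continuous (fun z : ℝ × E => F z.1 z.2) := by
    have hu : TendstoUniformly (fun n (z : ℝ × E) => ff g n z.1 z.2)
        (fun z : ℝ × E => F z.1 z.2) atTop := by
      rw [Metric.tendstoUniformly_iff]
      intro ε hε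
      filter_upwards [hgeo.eventually (gt_mem_nhds hε)] with n hn z
      rw [Real.dist_eq]
      refine lt_of_le_of_lt (hFd z.1 z.2 n) (lt_of_le_of_lt ?_ hn)
      exact mul_le_mul_of_nonneg_left (hwL z.1 z.2) (by positivity)
    exact hu.continuous (Frequently.of_forall fun n => (hind n).1)
  have hFe : ∀ t ξ, F t (-ξ) = F t ξ := by
    intro t ξ
    have h5 := hF t (-ξ)
    have e : (fun n => ff g n t (-ξ)) = fun n => ff g n t ξ := by
      funext n; exact (hind n).2.2 t ξ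
    rw [e] at h5
    exact tendsto_nhds_unique h5 (hF t ξ)
  have hfix : ∀ t ξ, F t ξ = GG g t ξ + BB F F t ξ := by
    intro t ξ
    have h5 : Tendsto (fun n => ff g (n + 1) t ξ) atTop (𝓝 (F t ξ)) :=
      (hF t ξ).comp (tendsto_add_atTop_nat 1)
    have h6 : Tendsto (fun n => ff g (n + 1) t ξ) atTop (𝓝 (GG g t ξ + BB F F t ξ)) := by
      show Tendsto (fun n => GG g t ξ + BB (ff g n) (ff g n) t ξ) atTop _
      apply Tendsto.const_add
      rw [tendsto_iff_dist_tendsto_zero]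
      apply squeeze_zero (fun _ => dist_nonneg) (fun n => ?_) hgeo
      rw [dist_comm, Real.dist_eq]
      have h7 := hdiff F (ff g n) (4 * a * (1 / 2) ^ n) (by positivity) hFc (hind n).1 hFb
        (hind n).2.1 (fun t ξ => hFd t ξ n) t ξ
      refine h7.trans ?_
      have h8 := hwL t ξ
      have h9 := hwpos t ξ
      have h10 : (0 : ℝ) < 4 * a * (1 / 2) ^ n := by positivity
      nlinarith [mul_pos h10 h9, mul_le_mul_of_nonneg_left h8 h10.le]
    exact tendsto_nhds_unique h5 h6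
  have hneg : ∀ t, t ≤ 0 → F t = g := by
    intro t ht
    funext ξ
    rw [hfix t ξ]
    unfold GG BB
    rw [max_eq_right ht]
    simp
  refine ⟨F, hFc, hneg 0 le_rfl, fun t ht => by rw [hneg t ht, hneg 0 le_rfl], hFe, ?_, ?_⟩
  · intro t ξ
    calc |F t ξ| ≤ 2 * a * w t ξ := hFb t ξ
      _ ≤ 2 * a * (L * Wg 6 1 1 ξ) := mul_le_mul_of_nonneg_left (hwle t ξ) (by positivity)
      _ = 2 * a * L * Wg 6 1 1 ξ := by ring
  · intro t ξ ht
    rw [hneg 0 le_rfl, hfix t ξ]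
    unfold GG BB
    rw [max_eq_left ht]

end Pool.Agent.W637.KG
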